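import Pool.Agent.Helper35.REC.PTHA

/-!
# PTH: rational curves in the group (MP_78e9a5_nt)   [helper35]
-/

set_option autoImplicit false

open scoped Classical
open Polynomial DualNumber

namespace REC
namespace P35

variable {K : Type} [Field K]

theorem map_smul' {R R' : Type} [CommRing R] [CommRing R'] (f : R →+* R') {a b : Type}
    (z : R) (M : Matrix a b R) : (z • M).map f = f z • M.map f := by
  apply Matrix.ext
  intro x y
  simp [Matrix.map_apply, Matrix.smul_apply]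

/-- cancellation of units -/
theorem smul_cancel {R : Type} [CommRing R] {a b : Type} {z z' : R} (h : z' * z = 1)
    {M N : Matrix a b R} (e : z • M = z • N) : M = N := by
  have := congrArg (fun P => z' • P) e
  simp only [smul_smul, h, one_smul] at this
  exact this

theorem eps_mat {a b : Type} {M : Matrix a b K}
    (h : (ε : K[ε]) • M.map (algebraMap K K[ε]) = 0) : M = 0 := by
  apply Matrix.ext
  intro x y
  have h1 := congrFun (congrFun h x) y
  rw [Matrix.smul_apply, Matrix.map_apply, smul_eq_mul, mul_comm] at h1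
  exact eps_inj h1

/-- the data at a point -/
theorem point0 {n : ℕ} (J : Matrix (Fin n) (Fin n) K) (x y : Matrix (Fin n) (Fin n) K[X]) (d : K[X])
    (hxy : x * y = (d ^ 2) • (1 : Matrix (Fin n) (Fin n) K[X]))
    (hJ : x.transpose * J.map C * x = (d ^ 2) • J.map C) (hdet : x.det = d ^ n)
    (τ : K) (hτ : d.eval τ ≠ 0) :
    ∃ ξ : Matrix (Fin n) (Fin n) K, ξ.trace = 0 ∧ ξ.transpose * J + J * ξ = 0 ∧
      x.map (ev τ) = (ev τ d * algebraMap K K[ε] (d.eval τ)⁻¹) •
        ((x.map (evalRingHom τ)).map (algebraMap K K[ε]) *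
          (1 + (ε : K[ε]) • ξ.map (algebraMap K K[ε]))) ∧
      y.map (ev τ) = (ev τ d * algebraMap K K[ε] (d.eval τ)⁻¹) •
        ((1 - (ε : K[ε]) • ξ.map (algebraMap K K[ε])) *
          (y.map (evalRingHom τ)).map (algebraMap K K[ε])) := by
  obtain ⟨ι, hι⟩ : ∃ ι : K →+* K[ε], ι = algebraMap K K[ε] := ⟨_, rfl⟩
  have hev : ∀ f : K[X], ev τ f = ι (f.eval τ) + ι (f.derivative.eval τ) * ε := by
    intro f
    rw [hι]
    exact ev_eq τ f
  have hee : (ε : K[ε]) * ε = 0 := DualNumber.eps_mul_eps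
  have heps : ∀ {M : Matrix (Fin n) (Fin n) K}, (ε : K[ε]) • M.map ι = 0 → M = 0 := by
    intro M h
    rw [hι] at h
    exact eps_mat h
  have hepsi : ∀ {a : K}, ι a * ε = 0 → a = 0 := by
    intro a h
    rw [hι] at h
    exact eps_inj h
  rw [← hι]
  -- names
  obtain ⟨d0, hd0⟩ : ∃ d0, d0 = d.eval τ := ⟨_, rfl⟩
  obtain ⟨d1, hd1⟩ : ∃ d1, d1 = d.derivative.eval τ := ⟨_, rfl⟩
  obtain ⟨A, hA⟩ : ∃ A, A = x.map (evalRingHom τ) := ⟨_, rfl⟩
  obtain ⟨B, hB⟩ : ∃ B, B = y.map (evalRingHom τ) := ⟨_, rfl⟩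
  obtain ⟨X1, hX1⟩ : ∃ X1 : Matrix (Fin n) (Fin n) K, X1 = Matrix.of fun a b =>
    (x a b).derivative.eval τ := ⟨_, rfl⟩
  obtain ⟨δ, hδ⟩ : ∃ δ, δ = ev τ d := ⟨_, rfl⟩
  obtain ⟨w, hw⟩ : ∃ w, w = ι d0⁻¹ := ⟨_, rfl⟩
  rw [← hd0] at hτ
  rw [← hA, ← hB, ← hδ, ← hd0, ← hw]
  have hδ' : δ = ι d0 + ι d1 * ε := by rw [hδ, hev, hd0, hd1]
  have hw0 : w * ι d0 = 1 := by rw [hw, ← map_mul, inv_mul_cancel₀ hτ, map_one]
  have hδi : (w - w * w * ι d1 * ε) * δ = 1 := by
    rw [hδ']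
    linear_combination (1 - w * ι d1 * ε) * hw0 + (- w * w * ι d1 * ι d1) * hee
  have hδw : δ * w = 1 + ι (d0⁻¹ * d1) * ε := by
    rw [hδ', map_mul, ← hw]
    linear_combination hw0
  -- products at the point
  have hAB : A * B = (d0 ^ 2) • (1 : Matrix (Fin n) (Fin n) K) := by
    rw [hA, hB, ← Matrix.map_mul, hxy, map_smul', Matrix.map_one _ (map_zero _) (map_one _),
      map_pow, hd0]
    rfl
  have hBA : B * A = (d0 ^ 2) • (1 : Matrix (Fin n) (Fin n) K) := by
    have h1 : ((d0 ^ 2)⁻¹ • A) * B = 1 := by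
      rw [Matrix.smul_mul, hAB, smul_smul, inv_mul_cancel₀ (pow_ne_zero 2 hτ), one_smul]
    have h2 := mul_eq_one_comm.1 h1
    rw [Matrix.mul_smul] at h2
    have h3 := congrArg (fun P => (d0 ^ 2) • P) h2
    simp only [smul_smul, mul_inv_cancel₀ (pow_ne_zero 2 hτ), one_smul] at h3
    exact h3
  have hJA : A.transpose * J * A = (d0 ^ 2) • J := by
    have h1 := congrArg (fun P => P.map (evalRingHom τ)) hJ
    rw [Matrix.map_mul, Matrix.map_mul, map_smul', map_pow, Matrix.transpose_map, ← hA] at h1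
    have h2 : (J.map C).map (evalRingHom τ) = J := by
      apply Matrix.ext
      intro a b
      simp
    rw [h2] at h1
    rw [h1, hd0]
    rfl
  have hdA : A.det = d0 ^ n := by
    have h1 := congrArg (evalRingHom τ) hdet
    rw [RingHom.map_det, map_pow] at h1
    rw [hA, hd0]
    exact h1
  -- the tangent vector
  obtain ⟨ξ, hξ⟩ : ∃ ξ, ξ = ((d0⁻¹) ^ 2) • (B * X1) - (d0⁻¹ * d1) • (1 : Matrix (Fin n) (Fin n) K) :=
    ⟨_, rfl⟩
  have hAξ : A * ξ = X1 - (d0⁻¹ * d1) • A := by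
    rw [hξ, mul_sub, Matrix.mul_smul, Matrix.mul_smul, ← mul_assoc, hAB, Matrix.smul_mul, one_mul,
      mul_one, smul_smul]
    have : d0⁻¹ ^ 2 * d0 ^ 2 = 1 := by
      rw [← mul_pow, inv_mul_cancel₀ hτ, one_pow]
    rw [this, one_smul]
  obtain ⟨E, hE⟩ : ∃ E, E = 1 + (ε : K[ε]) • ξ.map ι := ⟨_, rfl⟩
  obtain ⟨E', hE'⟩ : ∃ E', E' = 1 - (ε : K[ε]) • ξ.map ι := ⟨_, rfl⟩
  have hEE : E' * E = 1 := by
    rw [hE, hE', sub_mul, mul_add, mul_one, one_mul, Matrix.mul_add, Matrix.smul_mul,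
      Matrix.smul_mul, Matrix.mul_smul, smul_smul, hee, zero_smul, mul_one]
    abel
  have hg : x.map (ev τ) = (δ * w) • (A.map ι * E) := by
    have h1 : x.map (ev τ) = A.map ι + (ε : K[ε]) • X1.map ι := by
      apply Matrix.ext
      intro a b
      rw [Matrix.map_apply, hev, Matrix.add_apply, Matrix.smul_apply, Matrix.map_apply,
        Matrix.map_apply, hA, hX1, smul_eq_mul, mul_comm (ε : K[ε])]
      rfl
    have h2 : A.map ι * E = A.map ι + (ε : K[ε]) • (X1.map ι - (ι (d0⁻¹ * d1)) • A.map ι) := by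
      rw [hE, mul_add, mul_one, Matrix.mul_smul, ← Matrix.map_mul, hAξ, Matrix.map_sub _ (map_sub _),
        map_smul']
    have h3 : (1 + ι (d0⁻¹ * d1) * ε) * (ε : K[ε]) = ε := by
      linear_combination (ι (d0⁻¹ * d1)) * hee
    rw [h1, h2, hδw, smul_add, smul_smul, h3, add_smul, one_smul, smul_sub, smul_smul,
      mul_comm (ε : K[ε])]
    abel
  have hgg : x.map (ev τ) * y.map (ev τ) = (δ ^ 2) • (1 : Matrix (Fin n) (Fin n) K[ε]) := by
    rw [← Matrix.map_mul, hxy, map_smul', Matrix.map_one _ (map_zero _) (map_one _),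
      map_pow, hδ]
  have hBA' : B.map ι * A.map ι = (ι d0 ^ 2) • (1 : Matrix (Fin n) (Fin n) K[ε]) := by
    rw [← Matrix.map_mul, hBA, map_smul', Matrix.map_one _ (map_zero _) (map_one _), map_pow]
  have hg' : y.map (ev τ) = (δ * w) • (E' * B.map ι) := by
    have h1 : E' * B.map ι * x.map (ev τ) = (δ * ι d0) • (1 : Matrix (Fin n) (Fin n) K[ε]) := by
      rw [hg, Matrix.mul_smul]
      have h2 : E' * B.map ι * (A.map ι * E) = (ι d0 ^ 2) • (1 : Matrix (Fin n) (Fin n) K[ε]) := by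
        rw [mul_assoc, ← mul_assoc (B.map ι), hBA', Matrix.smul_mul, one_mul, Matrix.mul_smul, hEE]
      rw [h2, smul_smul]
      congr 1
      linear_combination δ * ι d0 * hw0
    have h3 : (δ * ι d0) • y.map (ev τ) = (δ ^ 2) • (E' * B.map ι) := by
      have h4 := congrArg (fun P => P * y.map (ev τ)) h1
      rw [mul_assoc, hgg, Matrix.mul_smul, mul_one, Matrix.smul_mul, one_mul] at h4
      exact h4.symm
    have h5 : ((w - w * w * ι d1 * ε) * w) * (δ * ι d0) = 1 := by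
      linear_combination w * ι d0 * hδi + hw0
    have h6 : (δ * ι d0) • y.map (ev τ) = (δ * ι d0) • ((δ * w) • (E' * B.map ι)) := by
      rw [h3, smul_smul]
      congr 1
      linear_combination (-δ ^ 2) * hw0
    exact smul_cancel h5 h6
  refine ⟨ξ, ?_, ?_, ?_, ?_⟩
  · -- the trace
    have h1 : (x.map (ev τ)).det = δ ^ n := by
      rw [hδ, ← map_pow, ← hdet, RingHom.map_det]
      rfl
    have h2 : (A.map ι).det = ι d0 ^ n := by
      rw [← map_pow, ← hdA, RingHom.map_det]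
      rfl
    rw [hg, Matrix.det_smul, Matrix.det_mul, h2, Fintype.card_fin] at h1
    have h3 : E.det = 1 := by
      have h4 : δ ^ n * E.det = δ ^ n := by
        calc δ ^ n * E.det = (δ * w) ^ n * (ι d0 ^ n * E.det) := by
              rw [mul_pow]
              have h5 : w ^ n * ι d0 ^ n = 1 := by rw [← mul_pow, hw0, one_pow]
              linear_combination (-δ ^ n * E.det) * h5
          _ = δ ^ n := h1
      have h6 : (w - w * w * ι d1 * ε) ^ n * δ ^ n = 1 := by
        rw [← mul_pow, hδi, one_pow]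
      calc E.det = ((w - w * w * ι d1 * ε) ^ n * δ ^ n) * E.det := by rw [h6, one_mul]
        _ = (w - w * w * ι d1 * ε) ^ n * (δ ^ n * E.det) := by ring
        _ = 1 := by rw [h4, h6]
    rw [hE, Matrix.det_one_add_smul] at h3
    have h7 : (ξ.map ι).trace = ι ξ.trace := by
      rw [Matrix.trace, Matrix.trace, map_sum]
      rfl
    rw [h7] at h3
    apply hepsi
    rw [sq, hee, mul_zero, add_zero] at h3
    linear_combination h3
  · -- the form
    have h0 : (J.map C).map (ev τ) = J.map ι := by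
      apply Matrix.ext
      intro a b
      rw [Matrix.map_apply, Matrix.map_apply, Matrix.map_apply, hev]
      simp
    have h1 : (x.map (ev τ)).transpose * J.map ι * x.map (ev τ) = (δ ^ 2) • J.map ι := by
      have h2 := congrArg (fun P => P.map (ev τ)) hJ
      rw [Matrix.map_mul, Matrix.map_mul, map_smul', map_pow, Matrix.transpose_map, h0,
        ← hδ] at h2
      exact h2
    have h2 : (A.map ι).transpose * J.map ι * A.map ι = (ι d0 ^ 2) • J.map ι := by
      have h3 := congrArg (fun P => P.map ι) hJA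
      rw [Matrix.map_mul, Matrix.map_mul, map_smul', map_pow, Matrix.transpose_map] at h3
      exact h3
    rw [hg, Matrix.transpose_smul, Matrix.transpose_mul, Matrix.smul_mul, Matrix.smul_mul,
      Matrix.mul_smul, smul_smul] at h1
    have h3 : E.transpose * (A.map ι).transpose * J.map ι * (A.map ι * E) =
        (ι d0 ^ 2) • (E.transpose * J.map ι * E) := by
      calc E.transpose * (A.map ι).transpose * J.map ι * (A.map ι * E) =
          E.transpose * ((A.map ι).transpose * J.map ι * A.map ι) * E := by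
            simp only [mul_assoc]
        _ = (ι d0 ^ 2) • (E.transpose * J.map ι * E) := by
            rw [h2, Matrix.mul_smul, Matrix.smul_mul]
    rw [h3, smul_smul] at h1
    have h4 : δ * w * (δ * w) * ι d0 ^ 2 = δ ^ 2 := by
      linear_combination (δ ^ 2 * (w * ι d0 + 1)) * hw0
    rw [h4] at h1
    have h5 : (w - w * w * ι d1 * ε) ^ 2 * δ ^ 2 = 1 := by
      rw [← mul_pow, hδi, one_pow]
    have h6 := smul_cancel h5 h1
    have h7 : E.transpose = 1 + (ε : K[ε]) • (ξ.map ι).transpose := by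
      rw [hE, Matrix.transpose_add, Matrix.transpose_one, Matrix.transpose_smul]
    apply heps
    rw [h7, hE, add_mul, one_mul, mul_add, mul_one, Matrix.smul_mul, Matrix.mul_smul,
      add_mul, Matrix.smul_mul, smul_add, smul_smul, hee, zero_smul, add_zero, add_assoc,
      add_eq_left] at h6
    rw [Matrix.map_add _ (map_add ι), Matrix.map_mul, Matrix.map_mul, Matrix.transpose_map,
      smul_add]
    exact h6
  · rw [hg, hE]
  · rw [hg', hE']

/-- the differential equation at a point -/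
theorem point (hTMB : ST_TMB) {t : ℕ} {m : Fin t → ℕ} {J : MM m K}
    {c₁ c₁' c₂ c₂' : Fin t → ℕ} {u : Matrix (Tix m c₂ c₂') (Tix m c₁ c₁') K} (hu : Eqv J u)
    (i : Fin t) (x y : Matrix (Fin (m i)) (Fin (m i)) K[X]) (d : K[X])
    (hxy : x * y = (d ^ 2) • (1 : Matrix (Fin (m i)) (Fin (m i)) K[X]))
    (hJ : x.transpose * (J i).map C * x = (d ^ 2) • (J i).map C) (hdet : x.det = d ^ (m i))
    (τ : K) (hτ : d.eval τ ≠ 0) (p : Tix m c₂ c₂') (q : Tix m c₁ c₁') (F : K[X])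
    (hF : F = (tmy c₂ c₂' (up i x) (up i y) * u.map C * tmy c₁ c₁' (up i y) (up i x)) p q) :
    (d ^ (c₂ i + c₂' i + (c₁ i + c₁' i))).eval τ * F.derivative.eval τ =
      (d ^ (c₂ i + c₂' i + (c₁ i + c₁' i))).derivative.eval τ * F.eval τ := by
  obtain ⟨ξ, htr, hform, hg, hg'⟩ := point0 (J i) x y d hxy hJ hdet τ hτ
  obtain ⟨ι, hι⟩ : ∃ ι : K →+* K[ε], ι = algebraMap K K[ε] := ⟨_, rfl⟩
  have T2 := T_dual c₂ c₂' hTMB i ξ
  have T1 := T_dual c₁ c₁' hTMB i ξ
  have hev : ∀ f : K[X], ev τ f = ι (f.eval τ) + ι (f.derivative.eval τ) * ε := by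
    intro f
    rw [hι]
    exact ev_eq τ f
  have hC : ∀ {a b : Type} (M : Matrix a b K), (M.map C).map (ev τ) = M.map ι := by
    intro a b M
    apply Matrix.ext
    intro a b
    rw [Matrix.map_apply, Matrix.map_apply, Matrix.map_apply, hev]
    simp
  rw [← hι] at hg hg' T1 T2
  obtain ⟨δ, hδ⟩ : ∃ δ, δ = ev τ d := ⟨_, rfl⟩
  obtain ⟨w, hw⟩ : ∃ w, w = ι (d.eval τ)⁻¹ := ⟨_, rfl⟩
  obtain ⟨A, hA⟩ : ∃ A, A = x.map (evalRingHom τ) := ⟨_, rfl⟩
  obtain ⟨B, hB⟩ : ∃ B, B = y.map (evalRingHom τ) := ⟨_, rfl⟩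
  obtain ⟨E, hE⟩ : ∃ E, E = 1 + (ε : K[ε]) • ξ.map ι := ⟨_, rfl⟩
  obtain ⟨E', hE'⟩ : ∃ E', E' = 1 - (ε : K[ε]) • ξ.map ι := ⟨_, rfl⟩
  rw [← hδ, ← hw, ← hA, ← hE] at hg
  rw [← hδ, ← hw, ← hB, ← hE'] at hg'
  rw [← hE, ← hE'] at T1 T2
  have hee : (ε : K[ε]) * ε = 0 := DualNumber.eps_mul_eps
  have hEE : E' * E = 1 := by
    rw [hE, hE', sub_mul, mul_add, mul_one, one_mul, Matrix.mul_add, Matrix.smul_mul,
      Matrix.smul_mul, Matrix.mul_smul, smul_smul, hee, zero_smul, mul_one]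
    abel
  have hEE' : E * E' = 1 := mul_eq_one_comm.1 hEE
  have hw0 : w * ι (d.eval τ) = 1 := by rw [hw, ← map_mul, inv_mul_cancel₀ hτ, map_one]
  -- `u` commutes with the tangent vector
  have hS : InS J (up0 i ξ) := by
    intro j
    by_cases h : j = i
    · subst h
      rw [up0_same]
      exact ⟨htr, hform⟩
    · rw [up0_ne h]
      simp
  have hcom : tmy c₂ c₂' (up i E) (up i E') * u.map ι = u.map ι * tmy c₁ c₁' (up i E) (up i E') := by
    rw [T1, T2, Matrix.add_mul, Matrix.mul_add, Matrix.one_mul, Matrix.mul_one, Matrix.smul_mul,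
      Matrix.mul_smul, ← Matrix.map_mul, ← Matrix.map_mul, hu _ hS]
  -- the value at `τ + ε`
  have hsc : ∀ (c c' : Fin t → ℕ) (M N : Matrix (Fin (m i)) (Fin (m i)) K[ε]),
      tmy c c' (up i ((δ * w) • M)) (up i ((δ * w) • N)) =
        (δ * w) ^ (c i + c' i) • tmy c c' (up i M) (up i N) := fun c c' M N =>
    T_smul c c' hTMB i (δ * w) M N
  have hA1 : (x.map (ev τ)) = (δ * w) • (A.map ι * E) := hg
  have key : (tmy c₂ c₂' (up i x) (up i y) * u.map C * tmy c₁ c₁' (up i y) (up i x)).map (ev τ) =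
      (δ * w) ^ (c₂ i + c₂' i + (c₁ i + c₁' i)) •
        (tmy c₂ c₂' (up i x) (up i y) * u.map C * tmy c₁ c₁' (up i y) (up i x)).map
          (ι.comp (evalRingHom τ)) := by
    have r : (tmy c₂ c₂' (up i x) (up i y) * u.map C * tmy c₁ c₁' (up i y) (up i x)).map
          (ι.comp (evalRingHom τ)) = tmy c₂ c₂' (up i (A.map ι)) (up i (B.map ι)) * u.map ι *
          tmy c₁ c₁' (up i (B.map ι)) (up i (A.map ι)) := by
      rw [Matrix.map_mul, Matrix.map_mul, T_map c₂ c₂' hTMB, T_map c₁ c₁' hTMB, hA, hB]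
      have r1 : (u.map C).map (ι.comp (evalRingHom τ)) = u.map ι := by
        apply Matrix.ext
        intro a b
        simp
      rw [r1]
      rfl
    rw [r, Matrix.map_mul, Matrix.map_mul, T_map c₂ c₂' hTMB, T_map c₁ c₁' hTMB, hC, hg, hg',
      hsc, hsc, T_mul c₂ c₂' hTMB, T_mul c₁ c₁' hTMB, Matrix.smul_mul, Matrix.smul_mul,
      Matrix.mul_smul, smul_smul, ← pow_add]
    congr 1
    calc tmy c₂ c₂' (up i (A.map ι)) (up i (B.map ι)) * tmy c₂ c₂' (up i E) (up i E') * u.map ι *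
          (tmy c₁ c₁' (up i E') (up i E) * tmy c₁ c₁' (up i (B.map ι)) (up i (A.map ι)))
        = tmy c₂ c₂' (up i (A.map ι)) (up i (B.map ι)) *
          (tmy c₂ c₂' (up i E) (up i E') * u.map ι) *
          (tmy c₁ c₁' (up i E') (up i E) * tmy c₁ c₁' (up i (B.map ι)) (up i (A.map ι))) := by
          simp only [Matrix.mul_assoc]
      _ = tmy c₂ c₂' (up i (A.map ι)) (up i (B.map ι)) * u.map ι *
          (tmy c₁ c₁' (up i E) (up i E') * tmy c₁ c₁' (up i E') (up i E)) *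
            tmy c₁ c₁' (up i (B.map ι)) (up i (A.map ι)) := by
          rw [hcom]
          simp only [Matrix.mul_assoc]
      _ = _ := by
          rw [← T_mul c₁ c₁' hTMB, hEE', T_one c₁ c₁' hTMB, Matrix.mul_one]
  have key2 := congrFun (congrFun key p) q
  rw [Matrix.map_apply, Matrix.smul_apply, Matrix.map_apply, ← hF, smul_eq_mul] at key2
  obtain ⟨s, hs⟩ : ∃ s, s = c₂ i + c₂' i + (c₁ i + c₁' i) := ⟨_, rfl⟩
  rw [← hs] at key2 ⊢
  have key3 : ι ((d ^ s).eval τ) * ev τ F = ev τ (d ^ s) * ι (F.eval τ) := by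
    rw [key2, map_pow, ← hδ, mul_pow, eval_pow, map_pow]
    have h5 : w ^ s * ι (d.eval τ) ^ s = 1 := by rw [← mul_pow, hw0, one_pow]
    show ι (d.eval τ) ^ s * (δ ^ s * w ^ s * ι (F.eval τ)) = δ ^ s * ι (F.eval τ)
    linear_combination (δ ^ s * ι (F.eval τ)) * h5
  rw [hev, hev] at key3
  have key4 := congrArg TrivSqZeroExt.snd key3
  rw [hι] at key4
  simp [TrivSqZeroExt.algebraMap_eq_inl] at key4
  rw [eval_pow]
  exact key4

end P35

theorem PTH (hTMB : ST_TMB) : ST_PTH := by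
  intro K _ _ t m J c₁ c₁' c₂ c₂' u hu i x y d hxy hJ hdet hd0 hd1 hx0
  obtain ⟨s, hs⟩ : ∃ s, s = c₂ i + c₂' i + (c₁ i + c₁' i) := ⟨_, rfl⟩
  have hd : d ≠ 0 := by
    rintro rfl
    simp at hd0
  obtain ⟨Φ, hΦ⟩ : ∃ Φ, Φ = tmy c₂ c₂' (P35.up i x) (P35.up i y) * u.map C *
    tmy c₁ c₁' (P35.up i y) (P35.up i x) := ⟨_, rfl⟩
  have hde : ∀ p q, d ^ s * derivative (Φ p q) = derivative (d ^ s) * Φ p q := by
    intro p q
    have h1 : d * (d ^ s * derivative (Φ p q)) = d * (derivative (d ^ s) * Φ p q) := by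
      apply Polynomial.funext
      intro τ
      by_cases hτ : d.eval τ = 0
      · rw [eval_mul, hτ, zero_mul, eval_mul, hτ, zero_mul]
      · rw [eval_mul, eval_mul, eval_mul, eval_mul, hs]
        congr 1
        exact P35.point hTMB hu i x y d hxy hJ hdet τ hτ p q (Φ p q) (by rw [hΦ])
    exact mul_left_cancel₀ hd h1
  have hev : ∀ (f : K[X]) (τ : K), evalRingHom τ f = f.eval τ := fun f τ => rfl
  -- the value of `Φ` at a point
  have hval : ∀ τ : K, Φ.map (evalRingHom τ) =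
      tmy c₂ c₂' (P35.up i (x.map (evalRingHom τ))) (P35.up i (y.map (evalRingHom τ))) * u *
      tmy c₁ c₁' (P35.up i (y.map (evalRingHom τ))) (P35.up i (x.map (evalRingHom τ))) := by
    intro τ
    rw [hΦ, Matrix.map_mul, Matrix.map_mul, P35.T_map c₂ c₂' hTMB, P35.T_map c₁ c₁' hTMB]
    have : (u.map C).map (evalRingHom τ) = u := by
      apply Matrix.ext
      intro a b
      simp
    rw [this]
  have hxy' : ∀ τ : K, x.map (evalRingHom τ) * y.map (evalRingHom τ) =
      (d.eval τ ^ 2) • (1 : Matrix (Fin (m i)) (Fin (m i)) K) := by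
    intro τ
    rw [← Matrix.map_mul, hxy, P35.map_smul', Matrix.map_one _ (map_zero _) (map_one _), map_pow]
    rfl
  -- at `0`
  have hy0 : y.map (evalRingHom (0 : K)) =
      (d.eval 0) • (1 : Matrix (Fin (m i)) (Fin (m i)) K) := by
    have h1 := hxy' 0
    have h2 : x.map (evalRingHom (0 : K)) =
      (d.eval 0) • (1 : Matrix (Fin (m i)) (Fin (m i)) K) := hx0
    rw [h2, Matrix.smul_mul, one_mul] at h1
    apply P35.smul_cancel (inv_mul_cancel₀ hd0)
    rw [h1, smul_smul, sq]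
  have hΦ0 : Φ.map (evalRingHom (0 : K)) = (d.eval 0 ^ s) • u := by
    have h2 : x.map (evalRingHom (0 : K)) =
      (d.eval 0) • (1 : Matrix (Fin (m i)) (Fin (m i)) K) := hx0
    rw [hval 0, h2, hy0, P35.T_smul c₂ c₂' hTMB, P35.T_smul c₁ c₁' hTMB, P35.T_one c₂ c₂' hTMB,
      P35.T_one c₁ c₁' hTMB, Matrix.smul_mul, Matrix.smul_mul, Matrix.mul_smul, smul_smul,
      ← pow_add, Matrix.one_mul, Matrix.mul_one, hs]
  have hΦ1 : Φ.map (evalRingHom (1 : K)) = (d.eval 1 ^ s) • u := by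
    apply Matrix.ext
    intro p q
    have h1 := P35.ode (hde p q) (by
      rw [coeff_zero_eq_eval_zero, eval_pow]
      exact pow_ne_zero s hd0)
    have h2 := congrArg (Polynomial.eval 1) h1
    rw [eval_mul, eval_mul, eval_C, eval_C, coeff_zero_eq_eval_zero, coeff_zero_eq_eval_zero,
      eval_pow, eval_pow] at h2
    have h3 := congrFun (congrFun hΦ0 p) q
    rw [Matrix.map_apply, Matrix.smul_apply, smul_eq_mul, hev] at h3
    rw [Matrix.map_apply, Matrix.smul_apply, smul_eq_mul, hev]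
    rw [h3] at h2
    apply mul_left_cancel₀ (pow_ne_zero s hd0)
    rw [h2]
    ring
  -- at `1`
  obtain ⟨z, hz⟩ : ∃ z, z = ((d.eval 1)⁻¹) • x.map (evalRingHom (1 : K)) := ⟨_, rfl⟩
  obtain ⟨z', hz'⟩ : ∃ z', z' = ((d.eval 1)⁻¹) • y.map (evalRingHom (1 : K)) := ⟨_, rfl⟩
  have hzz : z * z' = 1 := by
    rw [hz, hz', Matrix.smul_mul, Matrix.mul_smul, hxy', smul_smul, smul_smul]
    have : (d.eval 1)⁻¹ * (d.eval 1)⁻¹ * d.eval 1 ^ 2 = 1 := by
      field_simp
    rw [this, one_smul]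
  have hzz' : z' * z = 1 := mul_eq_one_comm.1 hzz
  have hmain : tmy c₂ c₂' (P35.up i z) (P35.up i z') * u * tmy c₁ c₁' (P35.up i z') (P35.up i z) =
      u := by
    rw [hz, hz', P35.T_smul c₂ c₂' hTMB, P35.T_smul c₁ c₁' hTMB, Matrix.smul_mul, Matrix.smul_mul,
      Matrix.mul_smul, smul_smul, ← pow_add, ← hval 1, hΦ1, smul_smul, ← hs, ← mul_pow,
      inv_mul_cancel₀ hd1, one_pow, one_smul]
  have hT1 : tmy c₁ c₁' (P35.up i z') (P35.up i z) * tmy c₁ c₁' (P35.up i z) (P35.up i z') = 1 := by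
    rw [← P35.T_mul c₁ c₁' hTMB, hzz', P35.T_one c₁ c₁' hTMB]
  have hfin : tmy c₂ c₂' (P35.up i z) (P35.up i z') * u =
      u * tmy c₁ c₁' (P35.up i z) (P35.up i z') := by
    calc tmy c₂ c₂' (P35.up i z) (P35.up i z') * u
        = tmy c₂ c₂' (P35.up i z) (P35.up i z') * u *
          (tmy c₁ c₁' (P35.up i z') (P35.up i z) * tmy c₁ c₁' (P35.up i z) (P35.up i z')) := by
          rw [hT1, Matrix.mul_one]
      _ = (tmy c₂ c₂' (P35.up i z) (P35.up i z') * u * tmy c₁ c₁' (P35.up i z') (P35.up i z)) *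
          tmy c₁ c₁' (P35.up i z) (P35.up i z') := by
          simp only [Matrix.mul_assoc]
      _ = u * tmy c₁ c₁' (P35.up i z) (P35.up i z') := by rw [hmain]
  rw [hz, hz'] at hfin
  exact hfin

end REC
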