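import Pool.Agent.Helper27.REC.StmtsT

/-!
# PTH, tools: one slot of a mixed tensor power, dual numbers, a differential equation
(MP_78e9a5_nt)   [helper35]
-/

set_option autoImplicit false

open scoped Classical
open Polynomial DualNumber

namespace REC
namespace P35

/-! ### one slot -/

section slot

variable {R : Type} [CommRing R] {t : ℕ} {m : Fin t → ℕ}

/-- a family with one non-trivial matrix -/
def up (i : Fin t) (x : Matrix (Fin (m i)) (Fin (m i)) R) : MM m R :=
  Function.update (fun _ => 1) i x

/-- a family with one non-zero matrix -/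
def up0 (i : Fin t) (x : Matrix (Fin (m i)) (Fin (m i)) R) : MM m R :=
  Function.update (fun _ => 0) i x

theorem up_same (i : Fin t) (x : Matrix (Fin (m i)) (Fin (m i)) R) : up i x i = x := by
  simp [up]

theorem up_ne {i j : Fin t} (h : j ≠ i) (x : Matrix (Fin (m i)) (Fin (m i)) R) :
    up i x j = 1 := by
  simp [up, Function.update_of_ne h]

theorem up0_same (i : Fin t) (x : Matrix (Fin (m i)) (Fin (m i)) R) : up0 i x i = x := by
  simp [up0]

theorem up0_ne {i j : Fin t} (h : j ≠ i) (x : Matrix (Fin (m i)) (Fin (m i)) R) :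
    up0 i x j = 0 := by
  simp [up0, Function.update_of_ne h]

theorem up_mul (i : Fin t) (x x' : Matrix (Fin (m i)) (Fin (m i)) R) :
    (fun j => up i x j * up i x' j) = up i (x * x') := by
  funext j
  by_cases h : j = i
  · subst h
    rw [up_same, up_same, up_same]
  · rw [up_ne h, up_ne h, up_ne h, one_mul]

theorem up_one (i : Fin t) : up i (1 : Matrix (Fin (m i)) (Fin (m i)) R) = fun _ => 1 := by
  funext j
  by_cases h : j = i
  · subst h
    rw [up_same]
  · rw [up_ne h]

theorem up_map {R' : Type} [CommRing R'] (f : R →+* R') (i : Fin t)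
    (x : Matrix (Fin (m i)) (Fin (m i)) R) :
    (fun j => (up i x j).map f) = up i (x.map f) := by
  funext j
  by_cases h : j = i
  · subst h
    rw [up_same, up_same]
  · rw [up_ne h, up_ne h, Matrix.map_one _ (map_zero f) (map_one f)]

theorem up_smul (i : Fin t) (z : R) (x : Matrix (Fin (m i)) (Fin (m i)) R) :
    (fun j => (Function.update (fun _ => (1 : R)) i z j) • up i x j) = up i (z • x) := by
  funext j
  by_cases h : j = i
  · subst h
    rw [up_same, up_same, Function.update_self]
  · rw [up_ne h, up_ne h, Function.update_of_ne h, one_smul]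

variable (c c' : Fin t → ℕ)

theorem T_mul (hTMB : ST_TMB) (i : Fin t) (x x' y y' : Matrix (Fin (m i)) (Fin (m i)) R) :
    tmy c c' (up i (x * x')) (up i (y' * y)) =
      tmy c c' (up i x) (up i y) * tmy c c' (up i x') (up i y') := by
  rw [← up_mul, ← up_mul]
  exact (hTMB R t m c c').1 (up i x) (up i x') (up i y) (up i y')

theorem T_one (hTMB : ST_TMB) (i : Fin t) :
    tmy c c' (up i (1 : Matrix (Fin (m i)) (Fin (m i)) R)) (up i 1) = 1 := by
  rw [up_one]
  exact (hTMB R t m c c').2.1

theorem T_map (hTMB : ST_TMB) {R' : Type} [CommRing R'] (f : R →+* R') (i : Fin t)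
    (x y : Matrix (Fin (m i)) (Fin (m i)) R) :
    (tmy c c' (up i x) (up i y)).map f = tmy c c' (up i (x.map f)) (up i (y.map f)) := by
  rw [← up_map, ← up_map]
  exact ((hTMB R t m c c').2.2.1 R' f (up i x) (up i y)).1

theorem T_smul (hTMB : ST_TMB) (i : Fin t) (z : R)
    (x y : Matrix (Fin (m i)) (Fin (m i)) R) :
    tmy c c' (up i (z • x)) (up i (z • y)) =
      z ^ (c i + c' i) • tmy c c' (up i x) (up i y) := by
  rw [← up_smul, ← up_smul]
  rw [(hTMB R t m c c').2.2.2.2.1 (Function.update (fun _ => (1 : R)) i z)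
    (Function.update (fun _ => (1 : R)) i z) (up i x) (up i y)]
  congr 1
  rw [Finset.prod_eq_single i]
  · rw [Function.update_self, pow_add]
  · intro j _ h
    rw [Function.update_of_ne h, one_pow, one_pow, one_mul]
  · intro h
    exact absurd (Finset.mem_univ i) h

end slot

/-! ### dual numbers -/

section dual

variable {K : Type} [Field K]

/-- evaluation of polynomials at the dual number `τ + ε` -/
noncomputable def ev (τ : K) : K[X] →+* K[ε] :=
  (Polynomial.aeval (algebraMap K K[ε] τ + ε) : K[X] →ₐ[K] K[ε]).toRingHom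

theorem ev_eq (τ : K) (f : K[X]) : ev τ f =
    algebraMap K K[ε] (f.eval τ) + algebraMap K K[ε] (f.derivative.eval τ) * ε := by
  show Polynomial.aeval (algebraMap K K[ε] τ + ε) f = _
  rw [Polynomial.aeval_add_of_sq_eq_zero _ _ _ (by rw [sq, DualNumber.eps_mul_eps]),
    Polynomial.aeval_algebraMap_apply, Polynomial.aeval_algebraMap_apply,
    Polynomial.coe_aeval_eq_eval]

theorem snd_form (a b : K) :
    TrivSqZeroExt.snd (algebraMap K K[ε] a + algebraMap K K[ε] b * ε) = b := by
  simp [TrivSqZeroExt.algebraMap_eq_inl]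

theorem eps_inj {a : K} (h : algebraMap K K[ε] a * ε = 0) : a = 0 := by
  have := snd_form (0 : K) a
  rw [h, map_zero, add_zero] at this
  simpa using this.symm

variable {t : ℕ} {m : Fin t → ℕ} (c c' : Fin t → ℕ)

theorem T_dual (hTMB : ST_TMB) (i : Fin t) (ξ : Matrix (Fin (m i)) (Fin (m i)) K) :
    tmy c c' (up i (1 + (ε : K[ε]) • ξ.map (algebraMap K K[ε])))
        (up i (1 - (ε : K[ε]) • ξ.map (algebraMap K K[ε]))) =
      1 + (ε : K[ε]) • (dtm c c' (up0 i ξ)).map (algebraMap K K[ε]) := by
  have h1 : up i ((1 : Matrix (Fin (m i)) (Fin (m i)) K[X]) + (Polynomial.X : K[X]) • ξ.map C) =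
      fun j => (1 : Matrix (Fin (m j)) (Fin (m j)) K[X]) + (Polynomial.X : K[X]) • (up0 i ξ j).map C := by
    funext j
    by_cases h : j = i
    · subst h
      rw [up_same, up0_same]
    · rw [up_ne h, up0_ne h, Matrix.map_zero _ (map_zero C), smul_zero, add_zero]
  have h2 : up i ((1 : Matrix (Fin (m i)) (Fin (m i)) K[X]) - (Polynomial.X : K[X]) • ξ.map C) =
      fun j => (1 : Matrix (Fin (m j)) (Fin (m j)) K[X]) - (Polynomial.X : K[X]) • (up0 i ξ j).map C := by
    funext j
    by_cases h : j = i
    · subst h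
      rw [up_same, up0_same]
    · rw [up_ne h, up0_ne h, Matrix.map_zero _ (map_zero C), smul_zero, sub_zero]
  have hC : ∀ a : K, ev 0 (C a) = algebraMap K K[ε] a := by
    intro a
    rw [ev_eq]
    simp
  have hX : ev 0 (Polynomial.X : K[X]) = (ε : K[ε]) := by
    rw [ev_eq]
    simp
  have hCm : (ξ.map C).map (ev 0) = ξ.map (algebraMap K K[ε]) := by
    apply Matrix.ext
    intro a b
    simp only [Matrix.map_apply]
    rw [hC]
  have m1 : ((1 : Matrix (Fin (m i)) (Fin (m i)) K[X]) + (Polynomial.X : K[X]) • ξ.map C).map (ev 0) =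
      1 + (ε : K[ε]) • ξ.map (algebraMap K K[ε]) := by
    rw [← hCm]
    apply Matrix.ext
    intro a b
    simp only [Matrix.map_apply, Matrix.add_apply, Matrix.smul_apply, smul_eq_mul, map_add,
      map_mul, hX]
    rw [← Matrix.map_apply (M := (1 : Matrix (Fin (m i)) (Fin (m i)) K[X])) (f := ev 0),
      Matrix.map_one _ (map_zero _) (map_one _)]
  have m2 : ((1 : Matrix (Fin (m i)) (Fin (m i)) K[X]) - (Polynomial.X : K[X]) • ξ.map C).map (ev 0) =
      1 - (ε : K[ε]) • ξ.map (algebraMap K K[ε]) := by
    rw [← hCm]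
    apply Matrix.ext
    intro a b
    simp only [Matrix.map_apply, Matrix.sub_apply, Matrix.smul_apply, smul_eq_mul, map_sub,
      map_mul, hX]
    rw [← Matrix.map_apply (M := (1 : Matrix (Fin (m i)) (Fin (m i)) K[X])) (f := ev 0),
      Matrix.map_one _ (map_zero _) (map_one _)]
  have h7 := T_map c c' hTMB (ev 0) i
    ((1 : Matrix (Fin (m i)) (Fin (m i)) K[X]) + (Polynomial.X : K[X]) • ξ.map C)
    ((1 : Matrix (Fin (m i)) (Fin (m i)) K[X]) - (Polynomial.X : K[X]) • ξ.map C)
  rw [← m1, ← m2, ← h7]
  apply Matrix.ext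
  intro p p'
  rw [Matrix.map_apply, ev_eq, Matrix.add_apply, Matrix.smul_apply, Matrix.map_apply,
    smul_eq_mul]
  have e1 : (tmy c c' (up i ((1 : Matrix (Fin (m i)) (Fin (m i)) K[X]) + (Polynomial.X : K[X]) • ξ.map C))
      (up i ((1 : Matrix (Fin (m i)) (Fin (m i)) K[X]) - (Polynomial.X : K[X]) • ξ.map C)) p p').derivative.eval
      0 = dtm c c' (up0 i ξ) p p' := by
    rw [← Polynomial.coeff_zero_eq_eval_zero, Polynomial.coeff_derivative, h1, h2]
    simp [dtm]
  have e2 : (tmy c c' (up i ((1 : Matrix (Fin (m i)) (Fin (m i)) K[X]) + (Polynomial.X : K[X]) • ξ.map C))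
      (up i ((1 : Matrix (Fin (m i)) (Fin (m i)) K[X]) - (Polynomial.X : K[X]) • ξ.map C)) p p').eval
      0 = (1 : Matrix (Tix m c c') (Tix m c c') K) p p' := by
    have h3 := T_map c c' hTMB (Polynomial.evalRingHom (0 : K)) i
      ((1 : Matrix (Fin (m i)) (Fin (m i)) K[X]) + (Polynomial.X : K[X]) • ξ.map C)
      ((1 : Matrix (Fin (m i)) (Fin (m i)) K[X]) - (Polynomial.X : K[X]) • ξ.map C)
    have h4 : ((1 : Matrix (Fin (m i)) (Fin (m i)) K[X]) + (Polynomial.X : K[X]) • ξ.map C).map
        (Polynomial.evalRingHom (0 : K)) = 1 := by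
      ext a b
      simp [Matrix.one_apply, apply_ite]
    have h5 : ((1 : Matrix (Fin (m i)) (Fin (m i)) K[X]) - (Polynomial.X : K[X]) • ξ.map C).map
        (Polynomial.evalRingHom (0 : K)) = 1 := by
      ext a b
      simp [Matrix.one_apply, apply_ite]
    rw [h4, h5, T_one c c' hTMB] at h3
    have h6 := congrFun (congrFun h3 p) p'
    rw [Matrix.map_apply] at h6
    exact h6
  rw [e1, e2, mul_comm]
  congr 1
  rw [← Matrix.map_apply (M := (1 : Matrix (Tix m c c') (Tix m c c') K))
    (f := algebraMap K K[ε]), Matrix.map_one _ (map_zero _) (map_one _)]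

end dual

/-! ### the differential equation -/

theorem ode {K : Type} [Field K] [CharZero K] {e F : K[X]}
    (h : e * derivative F = derivative e * F) (he : e.coeff 0 ≠ 0) :
    C (e.coeff 0) * F = C (F.coeff 0) * e := by
  obtain ⟨g, hg⟩ : ∃ g, g = C (e.coeff 0) * F - C (F.coeff 0) * e := ⟨_, rfl⟩
  have h1 : e * derivative g = derivative e * g := by
    rw [hg, derivative_sub, derivative_C_mul, derivative_C_mul]
    linear_combination C (e.coeff 0) * h
  have h2 : ∀ n, g.coeff n = 0 := by
    intro n
    induction n using Nat.strong_induction_on with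
    | _ n ih =>
      rcases n with _ | n
      · rw [hg, coeff_sub, coeff_C_mul, coeff_C_mul]
        ring
      · have h3 := congrArg (fun f : K[X] => f.coeff n) h1
        simp only [coeff_mul] at h3
        rw [Finset.sum_eq_single (0, n), Finset.sum_eq_zero] at h3
        · rw [coeff_derivative] at h3
          have h4 : ((n : K) + 1) ≠ 0 := by exact_mod_cast Nat.succ_ne_zero n
          rcases mul_eq_zero.1 h3 with h5 | h5
          · exact absurd h5 he
          · rcases mul_eq_zero.1 h5 with h6 | h6
            · exact h6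
            · exact absurd h6 h4
        · rintro ⟨a, b⟩ hab
          rw [Finset.HasAntidiagonal.mem_antidiagonal] at hab
          simp only at hab ⊢
          rw [ih b (by omega), mul_zero]
        · rintro ⟨a, b⟩ hab hne
          rw [Finset.HasAntidiagonal.mem_antidiagonal] at hab
          simp only at hab ⊢
          rw [coeff_derivative, ih (b + 1) (by
            rcases Nat.eq_zero_or_pos a with h0 | h0
            · exfalso
              apply hne
              rw [h0] at hab ⊢
              simp at hab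
              rw [hab]
            · omega), zero_mul, mul_zero]
        · intro hn
          exact absurd (Finset.HasAntidiagonal.mem_antidiagonal.2 (by simp)) hn
  have h3 : g = 0 := by
    ext n
    rw [h2 n, coeff_zero]
  rw [hg] at h3
  exact sub_eq_zero.1 h3

end P35
end REC
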